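import Mathlib
import Pool.Agent.Lib.MP_a34d76_pr.Rev.Main

/-! # MP_a34d76_pr: convex bodies of revolution in dimension at least three

Complete mixability of the uniform distribution on every convex body of revolution (and every
affine image of one) in `ℝ^d`, `d ≥ 3`, for every `n ≥ d + 1`. -/

set_option autoImplicit false

open MeasureTheory

namespace Pool.Agent.Results.MP_a34d76_pr.BodiesOfRevolution

/-- Let `d ≥ 3` and let `C` be a convex set in `ℝ^d` of positive finite volume which is a set of
revolution up to an affine change of coordinates: for some coordinate `j` and some invertible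
affine map `L`, whether a point `x` belongs to `C` depends only on the `j`-th coordinate and on the
Euclidean norm of `L x` (equivalently, on the position of `L x` along the `j`-th coordinate axis and
on its distance from this axis). Then for every `n ≥ d + 1` there are `n` random vectors, each
uniform on `C`, whose sum is almost surely constant. -/
theorem result (d : ℕ) (hd : 3 ≤ d) (C : Set (Fin d → ℝ))
    (hC : Convex ℝ C) (h0 : 0 < volume C) (h1 : volume C < ⊤)
    (j : Fin d) (L : (Fin d → ℝ) ≃ᵃ[ℝ] (Fin d → ℝ))
    (hrev : ∀ x ∈ C, ∀ y : Fin d → ℝ,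
      L y j = L x j → ∑ i, L y i ^ 2 = ∑ i, L x i ^ 2 → y ∈ C)
    (n : ℕ) (hn : d + 1 ≤ n) :
    ∃ P : Measure (Fin n → (Fin d → ℝ)),
      IsProbabilityMeasure P ∧
      (∀ i : Fin n,
        P.map (fun x : Fin n → (Fin d → ℝ) => x i)
          = (volume C)⁻¹ • volume.restrict C) ∧
      ∃ c : Fin d → ℝ, ∀ᵐ x ∂P, (∑ i, x i) = c :=
  Pool.Agent.Lib.MP_a34d76_pr.Rev.mixable_revolution hd hn hC h0.ne' h1.ne j L hrev

end Pool.Agent.Results.MP_a34d76_pr.BodiesOfRevolution
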