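import Mathlib
import Pool.Agent.Lib.HSC.Fin

/-!
# Complete mixability of convex bodies with homothetic parallel sections

The body `S = {(h(u) x, u) : 0 ≤ u ≤ 1, x ∈ K} ⊆ ℝ^m × ℝ` has the sections `h(u) K`; its uniform
law is that of `(h(U) X, U)` with `U` of density proportional to `h ^ m` and `X` uniform on `K`,
independent.

* The heights: for `n ≥ m + 2` there are `U_1, …, U_n` with `∑ U_i` constant (one-dimensional
  theorem for the densities `h ^ m`, `h` concave).
* Given the heights, the weighted mixability of `K` with the weights `w_i = h(U_i)` makes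
  `∑ h(U_i) (X_i - c)` zero, `c` the centroid of `K`, as soon as `N h(U_i) ≤ ∑ h(U_j)` for all `i`,
  `N` the number of `K`.  The sum of the points is then constant if `c = 0` or `h` is affine.
* This inequality: for `h` affine it follows from `∫ h ^ m ((m + 2) h - (m + 1) max h) ≥ 0` and
  `N ≤ m + 1`; it is clear if the shortest section is at least `(N - 1) / (n - 1)` times the
  longest; in general `∑ h(U_j)` is at least the sum `n ((1 - μ) h(0) + μ h(1))` over the chord,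
  `μ` the mean height, and `μ ≤ 1/2` for a nonincreasing profile.
-/

set_option autoImplicit false

open MeasureTheory

namespace Pool.Agent.Results.MP_a34d76_pr.HomotheticSections

/-- The join of `K ⊆ ℝ^k` and `L ⊆ ℝ^l`, placed in `ℝ^k × ℝ^l × ℝ`: the union of all segments that
join a point `(x, 0, 1)`, `x ∈ K`, to a point `(0, y, 0)`, `y ∈ L`. -/
def joinOf {k l : ℕ} (K : Set (Fin k → ℝ)) (L : Set (Fin l → ℝ)) :
    Set ((Fin k → ℝ) × (Fin l → ℝ) × ℝ) :=
  {z | ∃ t ∈ Set.Icc (0 : ℝ) 1, ∃ x ∈ K, ∃ y ∈ L, z = (t • x, (1 - t) • y, t)}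

/-- The class of `JoinsAndProducts`.  `Generated d K N`: the set `K ⊆ ℝ^d` is obtained from points
and from compact convex sets with nonempty interior and a centre of symmetry by affine images of
products and joins.  The number `N` is computed along the way: it is `1` for a point, `2` for a
symmetric body of dimension at least one, the maximum of the two numbers for a product, and the
dimension plus one for a join. -/
inductive Generated : (d : ℕ) → Set (Fin d → ℝ) → ℕ → Prop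
  | point : Generated 0 Set.univ 1
  | symmetric {d : ℕ} {K : Set (Fin d → ℝ)} (hd : 1 ≤ d) (hc : IsCompact K) (hv : Convex ℝ K)
      (hi : (interior K).Nonempty) (c : Fin d → ℝ) (hs : ∀ x ∈ K, (2 : ℝ) • c - x ∈ K) :
      Generated d K 2
  | product {k l d M N : ℕ} {K : Set (Fin k → ℝ)} {L : Set (Fin l → ℝ)} (hK : Generated k K M)
      (hL : Generated l L N) (A : ((Fin k → ℝ) × (Fin l → ℝ)) ≃ᵃ[ℝ] (Fin d → ℝ)) :
      Generated d (A '' (K ×ˢ L)) (max M N)
  | join {k l d M N : ℕ} {K : Set (Fin k → ℝ)} {L : Set (Fin l → ℝ)} (hK : Generated k K M)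
      (hL : Generated l L N) (A : ((Fin k → ℝ) × (Fin l → ℝ) × ℝ) ≃ᵃ[ℝ] (Fin d → ℝ)) :
      Generated d (A '' joinOf K L) (k + l + 2)

theorem Generated.gen {d N : ℕ} {K : Set (Fin d → ℝ)} (h : Generated d K N) :
    Lib.MP_a34d76_pr.WM.Gen d K N := by
  induction h with
  | point => exact .point
  | symmetric hd hc hv hi c hs => exact .symm hd hc hv hi c hs
  | product hK hL A ihK ihL => exact .prod ihK ihL A
  | join hK hL A ihK ihL => exact .join ihK ihL A

/-- The set in `ℝ^m × ℝ` whose section at height `u ∈ [0,1]` is `h(u) K`. -/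
def sections {m : ℕ} (h : ℝ → ℝ) (K : Set (Fin m → ℝ)) : Set ((Fin m → ℝ) × ℝ) :=
  {z | ∃ u ∈ Set.Icc (0 : ℝ) 1, ∃ x ∈ K, z = (h u • x, u)}

/-- The mean height of the body with sections `h(u) K`, `K ⊆ ℝ^m`: the mean of the density
proportional to `h ^ m` on `[0,1]`. -/
noncomputable def meanHeight (m : ℕ) (h : ℝ → ℝ) : ℝ :=
  (∫ u in (0 : ℝ)..1, h u ^ m * u) / ∫ u in (0 : ℝ)..1, h u ^ m

/-- Let `m ≥ 1` and `n ≥ m + 2`, let `h` be continuous, concave and nonnegative on `[0,1]`, not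
identically zero, let `K ⊆ ℝ^m` belong to the class `Generated`, with number `N`, and let
`C ⊆ ℝ^(m+1)` be a convex set whose closure is an invertible affine image of
`{(h(u) x, u) : 0 ≤ u ≤ 1, x ∈ K}`.  Assume that `h` is affine on `[0,1]`, or that the centroid of
`K` is `0` and one of the following holds, `μ` being the mean height:

* `(N - 1) h(u) ≤ (n - 1) h(v)` for all `u`, `v` in `[0,1]`;
* `h` is monotone (nondecreasing or nonincreasing) on `[0,1]` and `(2 N - n) h(u) ≤ n h(v)` for all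
  `u`, `v` in `[0,1]` (no condition if `n ≥ 2 N`);
* `N h(u) ≤ n ((1 - μ) h(0) + μ h(1))` for all `u` in `[0,1]`;
* `N h(u_i) ≤ h(u_1) + ... + h(u_n)` for all `i` and all `u_1, ..., u_n` in `[0,1]` with mean `μ`.

Then there are `n` random vectors, each uniform on `C`, whose sum is almost surely constant. -/
theorem result (m n N : ℕ) (hm : 1 ≤ m) (hn : m + 2 ≤ n) (h : ℝ → ℝ)
    (hcont : ContinuousOn h (Set.Icc 0 1)) (hconc : ConcaveOn ℝ (Set.Icc 0 1) h)
    (hnonneg : ∀ u ∈ Set.Icc (0 : ℝ) 1, 0 ≤ h u) (hne : ∃ u ∈ Set.Icc (0 : ℝ) 1, h u ≠ 0)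
    (K : Set (Fin m → ℝ)) (hK : Generated m K N)
    (hcase :
      (∃ p q : ℝ, ∀ u ∈ Set.Icc (0 : ℝ) 1, h u = p + q * u) ∨
      ((∫ x in K, x) = 0 ∧
        ((∀ u ∈ Set.Icc (0 : ℝ) 1, ∀ v ∈ Set.Icc (0 : ℝ) 1,
            ((N : ℝ) - 1) * h u ≤ ((n : ℝ) - 1) * h v) ∨
        ((MonotoneOn h (Set.Icc 0 1) ∨ AntitoneOn h (Set.Icc 0 1)) ∧
          ∀ u ∈ Set.Icc (0 : ℝ) 1, ∀ v ∈ Set.Icc (0 : ℝ) 1,
            (2 * (N : ℝ) - n) * h u ≤ n * h v) ∨
        (∀ u ∈ Set.Icc (0 : ℝ) 1,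
            N * h u ≤ n * ((1 - meanHeight m h) * h 0 + meanHeight m h * h 1)) ∨
        (∀ u : Fin n → ℝ, (∀ i, u i ∈ Set.Icc (0 : ℝ) 1) → ∑ i, u i = n * meanHeight m h →
            ∀ i, N * h (u i) ≤ ∑ k, h (u k)))))
    (A : ((Fin m → ℝ) × ℝ) ≃ᵃ[ℝ] (Fin (m + 1) → ℝ)) (C : Set (Fin (m + 1) → ℝ))
    (hC : Convex ℝ C) (hcl : closure C = A '' sections h K) :
    ∃ P : Measure (Fin n → (Fin (m + 1) → ℝ)),
      IsProbabilityMeasure P ∧
      (∀ i : Fin n, P.map (fun x : Fin n → (Fin (m + 1) → ℝ) => x i)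
        = (volume C)⁻¹ • volume.restrict C) ∧
      ∃ c : Fin (m + 1) → ℝ, ∀ᵐ x ∂P, (∑ i, x i) = c := by
  obtain ⟨h', hc', hh'⟩ := Lib.HSC.exists_ext hcont
  have hconc' : ConcaveOn ℝ (Set.Icc 0 1) h' := hconc.congr fun u hu => (hh' u hu).symm
  have h0' : ∀ u ∈ Set.Icc (0 : ℝ) 1, 0 ≤ h' u := fun u hu => by
    rw [hh' u hu]; exact hnonneg u hu
  have hpos' : ∀ u ∈ Set.Ioo (0 : ℝ) 1, 0 < h' u := by
    refine Lib.HSC.pos hconc' h0' ?_
    obtain ⟨u, hu, hu0⟩ := hne
    exact ⟨u, hu, by rwa [hh' u hu]⟩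
  have hS : sections h K = Lib.HSC.secSet h' K := (Lib.HSC.secSet_congr hh' K).symm
  rw [hS] at hcl
  rcases hcase with ⟨p, q, hpq⟩ | ⟨hK0, hcase⟩
  · have hpq' : ∀ u ∈ Set.Icc (0 : ℝ) 1, h' u = p + q * u := fun u hu => by
      rw [hh' u hu]; exact hpq u hu
    obtain ⟨c, hP⟩ := Lib.HSC.mixable_affine hm hn hc' hconc' h0' hpos' hK.gen p q hpq'
    obtain ⟨B, hB⟩ := Lib.HSC.shift p q hpq' K c
    refine Lib.HSC.transfer (B.trans A) hP hC ?_
    rw [hcl, ← hB, ← Set.image_comp]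
    rfl
  · refine Lib.HSC.transfer A (Lib.HSC.mixable_centred hm hn hc' hconc' h0' hpos' hK.gen hK0 ?_)
      hC hcl
    have m0 : (0 : ℝ) ∈ Set.Icc (0 : ℝ) 1 := by simp
    have m1 : (1 : ℝ) ∈ Set.Icc (0 : ℝ) 1 := by simp
    rcases hcase with hb | ⟨hmon, hr⟩ | hd | he
    · refine Or.inl fun u hu v hv => ?_
      rw [hh' u hu, hh' v hv]
      exact hb u hu v hv
    · refine Or.inr (Or.inl ⟨?_, fun u hu v hv => ?_⟩)
      · rcases hmon with hmon | hmon
        · refine Or.inl fun u hu v hv huv => ?_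
          rw [hh' u hu, hh' v hv]
          exact hmon hu hv huv
        · refine Or.inr fun u hu v hv huv => ?_
          rw [hh' u hu, hh' v hv]
          exact hmon hu hv huv
      · rw [hh' u hu, hh' v hv]
        exact hr u hu v hv
    · refine Or.inr (Or.inr (Or.inl fun u hu => ?_))
      rw [Lib.HSC.mean_congr hh', hh' u hu, hh' 0 m0, hh' 1 m1]
      exact hd u hu
    · refine Or.inr (Or.inr (Or.inr fun u hu hs i => ?_))
      rw [Lib.HSC.mean_congr hh'] at hs
      simp only [hh' _ (hu _)]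
      exact he u hu hs i

end Pool.Agent.Results.MP_a34d76_pr.HomotheticSections
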