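import Mathlib
import Pool.Agent.Lib.MP_a34d76_pr.WM.Gen

/-!
# Complete mixability for the class generated by symmetric convex bodies under joins and products

Let `SF(δ)` be the following weighted form of complete mixability for a law `μ` with mean `0`: for
all weights `w_i ≥ 0` with `δ w_i ≤ ∑ w` there are `X_i ~ μ` with `∑ w_i X_i = 0`.

* A symmetric convex body satisfies `SF(2)`: the coupling `x cos θ_i + y sin θ_i` of a rotation
  invariant pair, with `∑ w_i (cos θ_i, sin θ_i) = 0` (a closed polygon with sides `w_i`).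
* Products: trivial.
* Joins `K * L` of `K ⊆ ℝ^k` and `L ⊆ ℝ^l`, with `N = k + l + 2`: the uniform law of the join is the
  law of `(t X, (1 - t) Y, t)` with `t ~ Beta(k + 1, l + 1)`.  Choose unit vectors `a_i` in `ℂ^N`
  with `∑ w_i a_i a_i^* = (∑ w / N) 1` (a tight frame, from the carpenter lemma), `U` Haar on the
  unitary group and `t_i = |P U a_i|²`, `P` the projection on the first `k + 1` coordinates.  Then
  `∑ w_i t_i` is constant and `w_i t_i ≤ ∑ w / N = ∑ w_j t_j / (k + 1)`, so that the weights
  `w_i t_i` are admissible for `K`, and similarly for `L`.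
-/

open MeasureTheory

namespace Pool.Agent.Results.MP_a34d76_pr.JoinsAndProducts

/-- The join of `K ⊆ ℝ^k` and `L ⊆ ℝ^l`, placed in `ℝ^k × ℝ^l × ℝ`: the union of all segments that
join a point `(x, 0, 1)`, `x ∈ K`, to a point `(0, y, 0)`, `y ∈ L`. -/
def joinOf {k l : ℕ} (K : Set (Fin k → ℝ)) (L : Set (Fin l → ℝ)) :
    Set ((Fin k → ℝ) × (Fin l → ℝ) × ℝ) :=
  {z | ∃ t ∈ Set.Icc (0 : ℝ) 1, ∃ x ∈ K, ∃ y ∈ L, z = (t • x, (1 - t) • y, t)}

/-- `Generated d C N`: the set `C ⊆ ℝ^d` is obtained from points and from compact convex sets with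
nonempty interior and a centre of symmetry by affine images of products and joins.  The number `N`
is computed along the way: it is `1` for a point, `2` for a symmetric body of dimension at least
one, the maximum of the two numbers for a product, and the dimension plus one for a join. -/
inductive Generated : (d : ℕ) → Set (Fin d → ℝ) → ℕ → Prop
  | point : Generated 0 Set.univ 1
  | symmetric {d : ℕ} {C : Set (Fin d → ℝ)} (hd : 1 ≤ d) (hc : IsCompact C) (hv : Convex ℝ C)
      (hi : (interior C).Nonempty) (c : Fin d → ℝ) (hs : ∀ x ∈ C, (2 : ℝ) • c - x ∈ C) :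
      Generated d C 2
  | product {k l d M N : ℕ} {K : Set (Fin k → ℝ)} {L : Set (Fin l → ℝ)} (hK : Generated k K M)
      (hL : Generated l L N) (A : ((Fin k → ℝ) × (Fin l → ℝ)) ≃ᵃ[ℝ] (Fin d → ℝ)) :
      Generated d (A '' (K ×ˢ L)) (max M N)
  | join {k l d M N : ℕ} {K : Set (Fin k → ℝ)} {L : Set (Fin l → ℝ)} (hK : Generated k K M)
      (hL : Generated l L N) (A : ((Fin k → ℝ) × (Fin l → ℝ) × ℝ) ≃ᵃ[ℝ] (Fin d → ℝ)) :
      Generated d (A '' joinOf K L) (k + l + 2)

theorem Generated.gen {d N : ℕ} {C : Set (Fin d → ℝ)} (h : Generated d C N) :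
    Lib.MP_a34d76_pr.WM.Gen d C N := by
  induction h with
  | point => exact .point
  | symmetric hd hc hv hi c hs => exact .symm hd hc hv hi c hs
  | product hK hL A ihK ihL => exact .prod ihK ihL A
  | join hK hL A ihK ihL => exact .join ihK ihL A

/-- Let `C ⊆ ℝ^d` be a convex set of positive finite volume whose closure belongs to the class
generated by points and symmetric convex bodies under affine images of products and joins, with
number `N`.  Then `N ≤ d + 1`, and for every `n ≥ N` (in particular for every `n ≥ d + 1`) there are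
`n` random vectors, each uniform on `C`, whose sum is almost surely constant. -/
theorem result (d N : ℕ) (C : Set (Fin d → ℝ)) (hC : Convex ℝ C) (h0 : 0 < volume C)
    (h1 : volume C < ⊤) (hgen : Generated d (closure C) N) :
    N ≤ d + 1 ∧ ∀ n : ℕ, N ≤ n →
      ∃ P : Measure (Fin n → (Fin d → ℝ)),
        IsProbabilityMeasure P ∧
        (∀ i : Fin n, P.map (fun x : Fin n → (Fin d → ℝ) => x i)
          = (volume C)⁻¹ • volume.restrict C) ∧
        ∃ c : Fin d → ℝ, ∀ᵐ x ∂P, (∑ i, x i) = c :=
  ⟨hgen.gen.all.2.2.2.2.1, fun _ hn => hgen.gen.mixable hC hn⟩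

end Pool.Agent.Results.MP_a34d76_pr.JoinsAndProducts
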