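import Mathlib
import Pool.Agent.Lib.MP_a34d76_pr.Quad.Main

/-!
# Uniform distributions on convex sets are completely mixable once `n ≥ 2 ^ ⌈log₂ d⌉ (d + 1)`

`PP d R` is the weak closure of the set of uniform laws on convex bodies in a ball.  If a member
`μ₀` of `PP d R` is not `n`-completely mixable, duality gives a Lipschitz `f` with
`∑ f (x l) ≤ 0` on the zero-sum `n`-tuples and `∫ f dμ₀ > 0`.  Let `μs` maximise `∫ f` over the
members of `PP d R` with centroid `0`, and let `G` be the convex hull of its support.  Small caps
can be split off from `μs` near every boundary point `z` of `G`; the limits of the caps live on the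
face of `z` and belong to the class, so that induction on the dimension applies to them.  A
two-dimensional slice of `G`, chosen with a Hausdorff dimension count, gives `z₁`, `z₂` in faces of
dimension at most `⌈i / 2⌉` and an extreme point `u` (if `n` is odd) with `k z₁ + k z₂ + e u = 0`,
`n = 2 k + e`.  Splitting off caps at these points contradicts the maximality of `μs`.
-/

set_option autoImplicit false

open MeasureTheory

namespace Pool.Agent.Results.MP_a34d76_pr.QuadraticNumber

/-- For every `d ≥ 2`, every convex set `C` in `ℝ^d` of positive finite volume and every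
`n ≥ 2 ^ ⌈log₂ d⌉ (d + 1)` there are `n` random vectors, each uniform on `C`, whose sum is almost
surely constant. -/
theorem result (d : ℕ) (hd : 2 ≤ d) (C : Set (Fin d → ℝ)) (hC : Convex ℝ C)
    (h0 : 0 < volume C) (h1 : volume C < ⊤) (n : ℕ) (hn : 2 ^ Nat.clog 2 d * (d + 1) ≤ n) :
    ∃ P : Measure (Fin n → (Fin d → ℝ)),
      IsProbabilityMeasure P ∧
      (∀ i : Fin n, P.map (fun x : Fin n → (Fin d → ℝ) => x i)
        = (volume C)⁻¹ • volume.restrict C) ∧
      ∃ c : Fin d → ℝ, ∀ᵐ x ∂P, (∑ i, x i) = c :=
  Lib.MP_a34d76_pr.Quad.main_pi hd hC h0.ne' h1.ne hn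

end Pool.Agent.Results.MP_a34d76_pr.QuadraticNumber
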